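import Pool.Agent.N343.TC.Stm

/-! Part NULL of project TC (helper343): the boundary curve is a null set. -/

set_option autoImplicit false

open MeasureTheory Set Filter Topology Metric Complex

namespace Pool.Agent.N281.TC.Null

open Pool.Agent.N343.TC

theorem main : S_NULL := by
  intro f r hf
  obtain ⟨hr, hd, -, -⟩ := hf
  have hsub : sphere (0 : ℂ) 1 ⊆ ball 0 r := by
    intro z hz
    rw [mem_sphere_zero_iff_norm] at hz
    rw [mem_ball_zero_iff, hz]
    exact hr
  have h1 : DifferentiableOn ℝ f (sphere (0 : ℂ) 1) := (hd.mono hsub).restrictScalars ℝ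
  exact addHaar_image_eq_zero_of_differentiableOn_of_addHaar_eq_zero volume h1
    (Measure.addHaar_sphere volume 0 1)

end Pool.Agent.N281.TC.Null
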